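import Pool.Agent.Helper776.Three
import Pool.Agent.Helper776.B0123

set_option autoImplicit false

/-!
Additive cubes are avoidable over {0,1,2,3}: the fixed point of the 24-uniform morphism
0 -> 001003002010131001001321, 1 -> 332331002010131001001321,
2 -> 332332331231131001001321, 3 -> 332332331233230233201321.
-/

namespace Pool.Agent.Results.MP_56af99_co.AdditiveCubes0123

/-- There is an infinite word over {0,1,2,3} with no additive cube: no three consecutive blocks
of the same positive length have the same sum. -/
theorem result :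
    ∃ w : ℕ → ℕ, (∀ m, w m = 0 ∨ w m = 1 ∨ w m = 2 ∨ w m = 3) ∧
      ∀ i n : ℕ, 0 < n →
        ¬ ((∑ k ∈ Finset.range n, w (i + k) = ∑ k ∈ Finset.range n, w (i + n + k)) ∧
           (∑ k ∈ Finset.range n, w (i + n + k) = ∑ k ∈ Finset.range n, w (i + 2 * n + k))) := by
  refine ⟨Helper776.B0123.y, Helper776.B0123.y_mem, fun i n hn h =>
    Helper776.B0123.no_cube n i hn ?_⟩
  apply Helper776.Three.block_cube
  · exact_mod_cast h.1
  · exact_mod_cast h.2

end Pool.Agent.Results.MP_56af99_co.AdditiveCubes0123
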